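import Pool.Agent.H566X.Main

set_option autoImplicit false

namespace Pool.Agent.Results.MP_5607ba_lc.CompactZeroDim

/-- The topological Vaught conjecture for all continuous actions of the Polish group `Sym(ℕ)`
(topology of pointwise convergence) on compact metrizable zero-dimensional spaces and all `F_σ`
invariant subsets: countably many orbits, or a nonempty perfect set of pairwise inequivalent
points. The first hypothesis is joint continuity of the action. -/
theorem result :
    ∀ (X : Type) [TopologicalSpace X] [CompactSpace X] [TopologicalSpace.MetrizableSpace X]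
      [TotallyDisconnectedSpace X] [MulAction (Equiv.Perm ℕ) X],
      (∀ (σ : Equiv.Perm ℕ) (x : X) (U : Set X), IsOpen U → σ • x ∈ U →
        ∃ (n : ℕ) (V : Set X), IsOpen V ∧ x ∈ V ∧
          ∀ τ : Equiv.Perm ℕ, (∀ i < n, τ i = σ i) → ∀ y ∈ V, τ • y ∈ U) →
      ∀ B : Set X, (∃ F : ℕ → Set X, (∀ k, IsClosed (F k)) ∧ B = ⋃ k, F k) →
        (∀ x ∈ B, ∀ σ : Equiv.Perm ℕ, σ • x ∈ B) →
        (∃ C : Set X, C.Countable ∧ ∀ x ∈ B, ∃ c ∈ C, ∃ σ : Equiv.Perm ℕ, σ • c = x) ∨
        (∃ P : Set X, P.Nonempty ∧ Perfect P ∧ P ⊆ B ∧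
          ∀ x ∈ P, ∀ y ∈ P, (∃ σ : Equiv.Perm ℕ, σ • x = y) → x = y) :=
  fun X _ _ _ _ _ h B hF hB => Pool.Agent.H566X.main_TOP X h B hF hB

end Pool.Agent.Results.MP_5607ba_lc.CompactZeroDim
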