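import Pool.Agent.H566M.All

set_option autoImplicit false

/-!
The countable-or-perfect dichotomy for the isomorphism types of countable linear orders with a
monotone binary relation and unary predicates.
-/

namespace Pool.Agent.Results.MP_5607ba_lc.MonotoneRelation

/-- Structures on `ℕ`: two binary relations `x.1`, `x.2.1` and unary predicates `x.2.2 i`. -/
abbrev Structures : Type := (ℕ → ℕ → Bool) × (ℕ → ℕ → Bool) × (ℕ → ℕ → Bool)

/-- `x.1` is a strict linear order and `x.2.1` is a monotone relation: it is preserved when its
first argument decreases or its second argument increases. -/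
structure MonotoneOrder (x : Structures) : Prop where
  irrefl : ∀ m, x.1 m m = false
  trans : ∀ m n k, x.1 m n = true → x.1 n k = true → x.1 m k = true
  total : ∀ m n, m ≠ n → x.1 m n = true ∨ x.1 n m = true
  left : ∀ m n k, x.1 m n = true → x.2.1 n k = true → x.2.1 m k = true
  right : ∀ m n k, x.2.1 m n = true → x.1 n k = true → x.2.1 m k = true

/-- `σ` is an isomorphism from `x` to `y`; this is the action of the Polish group of
permutations of `ℕ` on the space of structures. -/
def IsIso (σ : Equiv.Perm ℕ) (x y : Structures) : Prop :=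
  (∀ m n, y.1 (σ m) (σ n) = x.1 m n) ∧ (∀ m n, y.2.1 (σ m) (σ n) = x.2.1 m n) ∧
    ∀ i m, y.2.2 i (σ m) = x.2.2 i m

/-- Every invariant Borel set `B` of linear orders on `ℕ` with a monotone relation and unary
predicates contains countably many isomorphism types, or there is a continuous map from the
Cantor space into `B` with pairwise non-isomorphic values. -/
theorem result (B : Set Structures) (hB : MeasurableSet B) (hM : ∀ x ∈ B, MonotoneOrder x)
    (hi : ∀ x ∈ B, ∀ (y : Structures) (σ : Equiv.Perm ℕ), IsIso σ x y → y ∈ B) :
    (∃ f : ℕ → Structures, ∀ x ∈ B, ∃ (n : ℕ) (σ : Equiv.Perm ℕ), IsIso σ (f n) x) ∨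
    (∃ c : (ℕ → Bool) → Structures, Continuous c ∧ (∀ a, c a ∈ B) ∧
      ∀ a b, (∃ σ : Equiv.Perm ℕ, IsIso σ (c a) (c b)) → a = b) :=
  Pool.Agent.H566M.outM B hB
    (fun x hx => ⟨(hM x hx).irrefl, (hM x hx).trans, (hM x hx).total, (hM x hx).left,
      (hM x hx).right⟩) hi

end Pool.Agent.Results.MP_5607ba_lc.MonotoneRelation
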