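import Pool.Agent.H566U.All
import Pool.Agent.H584R2.Ugrp

set_option autoImplicit false

/-!
The topological Vaught conjecture for actions of the unitary group of `ℓ²(ℕ, ℂ)` (with the strong
operator topology) and σ-compact invariant sets.
-/

namespace Pool.Agent.Results.MP_5607ba_lc.UnitarySigmaCompact

open Pool.Agent.H584R2

/-- `B` is countable and consists of fixed points of `G`, or it contains a nonempty perfect set
of pairwise inequivalent points. -/
def FixedOrPerfect (G : Type) [Group G] {X : Type} [TopologicalSpace X] [MulAction G X]
    (B : Set X) : Prop :=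
  (B.Countable ∧ ∀ x ∈ B, ∀ g : G, g • x = x) ∨
    ∃ P : Set X, P.Nonempty ∧ Perfect P ∧ P ⊆ B ∧
      ∀ x ∈ P, ∀ y ∈ P, (∃ g : G, g • x = y) → x = y

/-- For every continuous action of `G` on a metrizable space every invariant set which is a
countable union of compact sets is countable and consists of fixed points, or contains a nonempty
perfect set of pairwise inequivalent points. -/
def SigmaCompactDichotomy (G : Type) [Group G] [TopologicalSpace G] : Prop :=
  ∀ (X : Type) [TopologicalSpace X] [TopologicalSpace.MetrizableSpace X] [MulAction G X],
    Continuous (fun q : G × X => q.1 • q.2) →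
    ∀ B : Set X, (∃ F : ℕ → Set X, (∀ k, IsCompact (F k)) ∧ B = ⋃ k, F k) →
      (∀ x ∈ B, ∀ g : G, g • x ∈ B) → FixedOrPerfect G B

/-- The topological Vaught conjecture for the unitary group of `ℓ²` and σ-compact sets. -/
theorem result : SigmaCompactDichotomy UGrp :=
  fun X i1 i2 i3 hc B hB hi => @Pool.Agent.H566U.main X i1 i2 i3 hc B hB hi

end Pool.Agent.Results.MP_5607ba_lc.UnitarySigmaCompact
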