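import Mathlib
import Pool.Agent.H584R2.Universal
import Pool.Agent.H584R2.Ugrp

/-!
MP_5607ba: the topological Vaught conjecture for all Polish groups is equivalent to its instance
for the invariant Borel sets of one continuous action of the unitary group `U(ℓ²)` on a compact
metrizable space.
-/

set_option autoImplicit false
set_option linter.all false

namespace Pool.Agent.Results.MP_5607ba_lc.VaughtUnitary

open Pool.Agent.Helper289.UO Pool.Agent.H584R2 Set MeasureTheory

/-- The action of the topological group `G` on the measurable space `X` is Borel. -/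
def BorelAction (G : Type) [TopologicalSpace G] [Group G] (X : Type) [MeasurableSpace X]
    [MulAction G X] : Prop :=
  @Measurable (G × X) X (@Prod.instMeasurableSpace G X (borel G) inferInstance) inferInstance
    (fun q => q.1 • q.2)

/-- The countable-or-perfect dichotomy for the orbits of `G` in the set `B ⊆ X`: countably many orbits
meet `B`, or there is a Borel map from the Cantor space to `B` which sends distinct points to
points in distinct orbits. -/
def Dichotomy (G : Type) [Group G] {X : Type} [MeasurableSpace X] [MulAction G X] (B : Set X) :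
    Prop :=
  {O : Set X | ∃ x ∈ B, O = MulAction.orbit G x}.Countable ∨
    ∃ f : (ℕ → Bool) → X, Measurable f ∧ (∀ z, f z ∈ B) ∧
      ∀ z w : ℕ → Bool, z ≠ w → ¬ ∃ g : G, g • f z = f w

/-- The topological Vaught conjecture for `G`: the dichotomy holds for every Borel action of `G` on a
standard Borel space. -/
def Vaught (G : Type) [TopologicalSpace G] [Group G] : Prop :=
  ∀ (X : Type) [MeasurableSpace X] [StandardBorelSpace X] [MulAction G X],
    BorelAction G X → Dichotomy G (univ : Set X)

/-- The topological Vaught conjecture. -/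
def TVC : Prop :=
  ∀ (G : Type) [TopologicalSpace G] [Group G] [IsTopologicalGroup G] [PolishSpace G], Vaught G

theorem dichotomy_back {G H X Y : Type} [Group G] [Group H] [MeasurableSpace X] [MulAction G X]
    [MeasurableSpace Y] [MulAction H Y] (B : Set X) (hB : Dichotomy G B) (f : Y → B)
    (hf : ∀ y y', (∃ h : H, h • y = y') ↔ ∃ g : G, g • (f y : X) = f y')
    (g : B → Y) (hg : Measurable g) (hgf : ∀ x : B, ∃ u : G, u • (f (g x) : X) = x) :
    Dichotomy H (univ : Set Y) := by
  rcases hB with hc | ⟨φ, hφ1, hφ2, hφ3⟩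
  · left
    let F : Set Y → Set X := fun O => {x | ∃ y ∈ O, ∃ u : G, u • (f y : X) = x}
    have hF : ∀ y : Y, F (MulAction.orbit H y) = MulAction.orbit G (f y : X) := by
      intro y
      ext x
      constructor
      · rintro ⟨y', ⟨h, hh⟩, u, rfl⟩
        obtain ⟨v, hv⟩ := (hf y y').1 ⟨h, hh⟩
        refine ⟨u * v, ?_⟩
        show (u * v) • (f y : X) = u • (f y' : X)
        rw [mul_smul, hv]
      · rintro ⟨u, rfl⟩
        exact ⟨y, ⟨1, one_smul _ _⟩, u, rfl⟩
    have himg : MapsTo F {O : Set Y | ∃ x ∈ (univ : Set Y), O = MulAction.orbit H x}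
        {O : Set X | ∃ x ∈ B, O = MulAction.orbit G x} := by
      rintro O ⟨y, -, rfl⟩
      exact ⟨f y, (f y).2, hF y⟩
    refine MapsTo.countable_of_injOn himg ?_ hc
    rintro O1 ⟨y1, -, rfl⟩ O2 ⟨y2, -, rfl⟩ h
    rw [hF, hF] at h
    have h1 : (f y2 : X) ∈ MulAction.orbit G (f y1 : X) := by
      rw [h]
      exact MulAction.mem_orbit_self _
    obtain ⟨h', hh'⟩ := (hf y1 y2).2 h1
    have h2 : y2 ∈ MulAction.orbit H y1 := ⟨h', hh'⟩
    exact (MulAction.orbit_eq_iff.2 h2).symm
  · right
    have hm : Measurable fun z => (⟨φ z, hφ2 z⟩ : B) := hφ1.subtype_mk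
    refine ⟨fun z => g ⟨φ z, hφ2 z⟩, hg.comp hm, fun z => mem_univ _, ?_⟩
    intro z w hzw hh
    obtain ⟨u, hu⟩ := (hf _ _).1 hh
    obtain ⟨a, ha⟩ := hgf ⟨φ z, hφ2 z⟩
    obtain ⟨b, hb⟩ := hgf ⟨φ w, hφ2 w⟩
    apply hφ3 z w hzw
    refine ⟨b * u * a⁻¹, ?_⟩
    have ha' : a⁻¹ • φ z = f (g ⟨φ z, hφ2 z⟩) := by
      rw [inv_smul_eq_iff]
      exact ha.symm
    rw [mul_smul, mul_smul, ha', hu, hb]

/-- The orbit equivalence relation of `H` on `Y` is represented by the invariant Borel set `B` of the
`G`-space `X`: there are an injective Borel reduction `f : Y → B` and a Borel map `g : B → Y` with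
`f (g x)` in the orbit of `x` (so that `g` is a reduction in the other direction). -/
def Represented (G : Type) [Group G] (X : Type) [TopologicalSpace X] [MulAction G X]
    (B : Set X) (H : Type) [Group H] (Y : Type) [MeasurableSpace Y] [MulAction H Y] : Prop :=
  ∃ (f : Y → B) (g : B → Y),
    @Measurable Y B _ (borel B) f ∧ @Measurable B Y (borel B) _ g ∧ Function.Injective f ∧
    (∀ x : B, ∃ u : G, u • (f (g x) : X) = x) ∧
    ∀ y y' : Y, (∃ h : H, h • y = y') ↔ ∃ u : G, u • (f y : X) = f y'

theorem main : ∃ (X : Type) (_ : TopologicalSpace X) (_ : CompactSpace X) (_ : PolishSpace X)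
      (_ : MulAction UU X),
    Continuous (fun q : UU × X => q.1 • q.2) ∧
    (∀ (H : Type) [TopologicalSpace H] [Group H] [IsTopologicalGroup H] [PolishSpace H]
      (Y : Type) [MeasurableSpace Y] [StandardBorelSpace Y] [MulAction H Y], BorelAction H Y →
      ∃ B : Set X, MeasurableSet[borel X] B ∧ (∀ (u : UU), ∀ x ∈ B, u • x ∈ B) ∧
        Represented UU X B H Y) := by
  haveI := uu_topgroup
  haveI := uu_polish
  obtain ⟨ν, hν⟩ := group_norm UU
  haveI : PolishSpace (KK ν) := kk_polish UU ν hν
  haveI : CompactSpace (KK ν) := measurable_of_eval_compact UU ν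
  letI mX : MeasurableSpace (ℕ → KK ν) := borel _
  haveI : BorelSpace (ℕ → KK ν) := ⟨rfl⟩
  letI act : MulAction UU (ℕ → KK ν) :=
    { smul := fun u x n => tr ν u (x n)
      one_smul := by
        intro x
        funext n
        apply Subtype.ext
        funext h
        show (x n).1 ((1 : UU)⁻¹ * h) = (x n).1 h
        rw [inv_one, one_mul]
      mul_smul := by
        intro u v x
        funext n
        apply Subtype.ext
        funext h
        show (x n).1 ((u * v)⁻¹ * h) = (x n).1 (v⁻¹ * (u⁻¹ * h))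
        rw [mul_inv_rev, mul_assoc] }
  refine ⟨ℕ → KK ν, inferInstance, inferInstance, inferInstance, act, act_cont UU ν hν, ?_⟩
  intro H _ _ _ _ Y _ _ _ hact
  letI : MeasurableSpace H := borel H
  haveI : BorelSpace H := ⟨rfl⟩
  letI : MeasurableSpace UU := borel UU
  haveI : BorelSpace UU := ⟨rfl⟩
  obtain ⟨G, p, hG, hp, hps⟩ := thmA H
  obtain ⟨f, hf1, hf2, hf3, hf4⟩ := BorelAct.coding ν hν G hG p hp hact
  have hactX : Measurable fun q : UU × (ℕ → KK ν) => q.1 • q.2 := (act_cont UU ν hν).measurable
  obtain ⟨B, hB1, hB2, g, hg1, hg2⟩ := Univ.transfer G hG hactX f hf1 hf2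
    (fun y g => ⟨_, hf3 y g⟩) (fun y y' u hu => (hf4 y y' u hu).1)
  have hfB : ∀ y, f y ∈ B := fun y => (hB2 _).2 ⟨1, y, one_smul _ _⟩
  have hborel : borel B = Subtype.instMeasurableSpace := (BorelSpace.measurable_eq).symm
  refine ⟨B, hB1, ?_, fun y => ⟨f y, hfB y⟩, g, ?_, ?_, ?_, ?_, ?_⟩
  · intro u x hx
    obtain ⟨v, y, rfl⟩ := (hB2 x).1 hx
    exact (hB2 _).2 ⟨u * v, y, mul_smul _ _ _⟩
  · rw [hborel]
    exact Measurable.subtype_mk hf1
  · rw [hborel]
    exact hg1
  · intro y y' h
    exact hf2 (congrArg Subtype.val h)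
  · exact hg2
  · intro y y'
    constructor
    · rintro ⟨h, rfl⟩
      obtain ⟨u, rfl⟩ := hps h
      exact ⟨u, hf3 y u⟩
    · rintro ⟨u, hu⟩
      obtain ⟨h1, h2⟩ := hf4 y y' u hu
      exact ⟨_, h2.symm⟩

/-- A set of orbits version of the dichotomy for an invariant Borel set follows from the
conjecture. -/
theorem dichotomy_of_vaught {G X : Type} [TopologicalSpace G] [Group G] [TopologicalSpace X]
    [PolishSpace X] [MulAction G X] [SecondCountableTopology G]
    (hact : Continuous fun q : G × X => q.1 • q.2) (hV : Vaught G)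
    (B : Set X) (hB : MeasurableSet[borel X] B) (hinv : ∀ (u : G), ∀ x ∈ B, u • x ∈ B) :
    @Dichotomy G _ X (borel X) _ B := by
  letI : MeasurableSpace X := borel X
  haveI : BorelSpace X := ⟨rfl⟩
  letI : MeasurableSpace G := borel G
  haveI : BorelSpace G := ⟨rfl⟩
  haveI : StandardBorelSpace B := hB.standardBorel
  letI act : MulAction G B :=
    { smul := fun u x => ⟨u • (x : X), hinv u x x.2⟩
      one_smul := fun x => Subtype.ext (one_smul G (x : X))
      mul_smul := fun u v x => Subtype.ext (mul_smul u v (x : X)) }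
  have hm : BorelAction G B := by
    have h1 : Measurable fun q : G × B => q.1 • (q.2 : X) :=
      hact.measurable.comp (measurable_fst.prodMk (measurable_subtype_coe.comp measurable_snd))
    exact h1.subtype_mk
  have horb : ∀ x y : B, (∃ u : G, u • x = y) ↔ ∃ u : G, u • (x : X) = y := by
    intro x y
    constructor
    · rintro ⟨u, hu⟩
      exact ⟨u, congrArg Subtype.val hu⟩
    · rintro ⟨u, hu⟩
      exact ⟨u, Subtype.ext hu⟩
  rcases hV B hm with hc | ⟨φ, hφ1, hφ2, hφ3⟩
  · left
    have h1 : {O : Set X | ∃ x ∈ B, O = MulAction.orbit G x} ⊆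
        (fun O : Set B => Subtype.val '' O) ''
          {O : Set B | ∃ x ∈ (univ : Set B), O = MulAction.orbit G x} := by
      rintro O ⟨x, hx, rfl⟩
      refine ⟨MulAction.orbit G (⟨x, hx⟩ : B), ⟨⟨x, hx⟩, mem_univ _, rfl⟩, ?_⟩
      ext z
      constructor
      · rintro ⟨_, ⟨u, rfl⟩, rfl⟩
        exact ⟨u, rfl⟩
      · rintro ⟨u, rfl⟩
        exact ⟨u • (⟨x, hx⟩ : B), ⟨u, rfl⟩, rfl⟩
    exact (hc.image _).mono h1
  · right
    refine ⟨fun z => φ z, measurable_subtype_coe.comp hφ1, fun z => (φ z).2, ?_⟩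
    intro z w hzw hh
    exact hφ3 z w hzw ((horb _ _).2 hh)

theorem main2 : ∃ (X : Type) (_ : TopologicalSpace X) (_ : CompactSpace X) (_ : PolishSpace X)
      (_ : MulAction UGrp X),
    Continuous (fun q : UGrp × X => q.1 • q.2) ∧
    (∀ (H : Type) [TopologicalSpace H] [Group H] [IsTopologicalGroup H] [PolishSpace H]
      (Y : Type) [MeasurableSpace Y] [StandardBorelSpace Y] [MulAction H Y], BorelAction H Y →
      ∃ B : Set X, MeasurableSet[borel X] B ∧ (∀ (u : UGrp), ∀ x ∈ B, u • x ∈ B) ∧
        Represented UGrp X B H Y) := main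

/-- There is a continuous action of the unitary group `U(ℓ²)` on a compact metrizable space `X`
such that every orbit equivalence relation of a Borel action of a Polish group is represented by an
invariant Borel subset of `X`, and such that the topological Vaught conjecture holds (for all
Polish groups) if and only if the dichotomy holds for the invariant Borel subsets of `X`. -/
theorem result : ∃ (X : Type) (_ : TopologicalSpace X) (_ : CompactSpace X) (_ : PolishSpace X)
      (_ : MulAction UGrp X),
    Continuous (fun q : UGrp × X => q.1 • q.2) ∧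
    (∀ (H : Type) [TopologicalSpace H] [Group H] [IsTopologicalGroup H] [PolishSpace H]
      (Y : Type) [MeasurableSpace Y] [StandardBorelSpace Y] [MulAction H Y], BorelAction H Y →
      ∃ B : Set X, MeasurableSet[borel X] B ∧ (∀ (u : UGrp), ∀ x ∈ B, u • x ∈ B) ∧
        Represented UGrp X B H Y) ∧
    (TVC ↔ ∀ B : Set X, MeasurableSet[borel X] B → (∀ (u : UGrp), ∀ x ∈ B, u • x ∈ B) →
      @Dichotomy UGrp _ X (borel X) _ B) := by
  obtain ⟨X, i1, i2, i3, i4, hc, hrep⟩ := main2
  refine ⟨X, i1, i2, i3, i4, hc, hrep, ?_, ?_⟩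
  · intro hT B hB hinv
    haveI : IsTopologicalGroup UGrp := uu_topgroup
    haveI : PolishSpace UGrp := uu_polish
    exact dichotomy_of_vaught hc (hT UGrp) B hB hinv
  · intro hD H _ _ _ _ Y _ _ _ hact
    obtain ⟨B, hB1, hB2, f, g, hf, hg, hinj, hgf, hiff⟩ := hrep H Y hact
    letI : MeasurableSpace X := borel X
    haveI : BorelSpace X := ⟨rfl⟩
    have hborel : borel B = Subtype.instMeasurableSpace := (BorelSpace.measurable_eq).symm
    rw [hborel] at hg
    exact dichotomy_back B (hD B hB1 hB2) f hiff g hg hgf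

end Pool.Agent.Results.MP_5607ba_lc.VaughtUnitary
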